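import Pool.Agent.H64.GG.All

/-!
# Rémond's conjecture: all degrees over radicals of coprime levels, uniformly in the levels

Let `a 0, ..., a (r-1)` be multiplicatively independent rational numbers, `Γ` the group generated by
them and `Γ_div` its division group. There are `c > 0` and `C` with
`h(β γ) ≥ c / (D (log (3 D)) ^ C)`, `D = [M(β) : M]`, for all the fields
`M = ℚ(ζ_m, θ 0, ..., θ (r-1))`, `θ i` an `N i`-th root of `a i`, where `m, N 0, ..., N (r-1)` are
pairwise coprime and every prime `q` which divides `N i` is prime to all the `a j` and divides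
`(a i) ^ (q - 1) - 1` only once, for all algebraic numbers `β` and all `γ ∈ Γ_div` such that `β γ`
is nonzero and not in `Γ_div`. The constants do not depend on the levels `m`, `N i`. Here
`NumberField.absLogHeight₁` is the absolute logarithmic Weil height.
-/

set_option autoImplicit false

open NumberField

namespace Pool.Agent.Results.MP_c65535_nt.AllDegrees

theorem result (r : ℕ) (a : Fin r → ℚ) (ha : ∀ i, a i ≠ 0)
    -- the `a i` are multiplicatively independent
    (hind : ∀ x : Fin r → ℤ, ∏ i, a i ^ x i = 1 → x = 0) :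
    ∃ (c : ℝ) (C : ℕ), 0 < c ∧
      -- the levels are positive and pairwise coprime
      ∀ (m : ℕ) (N : Fin r → ℕ), 0 < m → (∀ i, 0 < N i) → (∀ i, Nat.Coprime m (N i)) →
      (∀ i j, i ≠ j → Nat.Coprime (N i) (N j)) →
      -- the primes which divide `N i` are prime to all the `a j`
      (∀ (i : Fin r) (q : ℕ), q.Prime → q ∣ N i → ∀ j, padicValRat q (a j) = 0) →
      -- and divide `(a i) ^ (q - 1) - 1` only once
      (∀ (i : Fin r) (q : ℕ), q.Prime → q ∣ N i → padicValRat q (a i ^ (q - 1) - 1) = 1) →
      -- `θ i` is an `N i`-th root of `a i`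
      ∀ θ : Fin r → AlgebraicClosure ℚ,
      (∀ i, θ i ^ N i = algebraMap ℚ (AlgebraicClosure ℚ) (a i)) →
      -- `M` is the field generated by the `m`-th roots of unity and the `θ i`
      ∀ M : IntermediateField ℚ (AlgebraicClosure ℚ),
      M = IntermediateField.adjoin ℚ ({z | z ^ m = 1} ∪ Set.range θ) →
      -- `β` is any algebraic number, `γ` is in the division group
      ∀ β γ : AlgebraicClosure ℚ,
      (∃ n : ℕ, 0 < n ∧ ∃ x : Fin r → ℤ,
        γ ^ n = ∏ i, algebraMap ℚ (AlgebraicClosure ℚ) (a i) ^ x i) →
      -- the product is nonzero and not in the division group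
      β * γ ≠ 0 → (¬ ∃ n : ℕ, 0 < n ∧ ∃ x : Fin r → ℤ,
        (β * γ) ^ n = ∏ i, algebraMap ℚ (AlgebraicClosure ℚ) (a i) ^ x i) →
      c ≤ absLogHeight₁ (β * γ) * Module.finrank M (IntermediateField.adjoin M {β}) *
        (Real.log (3 * Module.finrank M (IntermediateField.adjoin M {β}))) ^ C :=
  Pool.Agent.H64.GG.gMAING r a ha hind

end Pool.Agent.Results.MP_c65535_nt.AllDegrees
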