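import Pool.Agent.H29.LG.All

/-!
# Rémond's conjecture over the field of all radicals, up to a power of a logarithm

Let `Γ` be a finitely generated group of nonzero algebraic numbers, `Γ_div` its division group,
`L = ℚ(Γ_div)` the field generated by all radicals of `Γ`, `S` a finite set of primes and `L_S` the
field generated over `ℚ` by all roots of unity and by all numbers `z` with `z ^ n ∈ Γ` for some
`n ≥ 1` all of whose prime factors are in `S`. There are `c > 0` and `C` with
`h(β γ) ≥ c / ([L(β) : L] (log (3 [L_S(β) : L_S])) ^ C)` for all algebraic numbers `β` and all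
`γ ∈ Γ_div` such that `β γ` is nonzero and not in `Γ_div`. Here `NumberField.absLogHeight₁` is the
absolute logarithmic Weil height.
-/

set_option autoImplicit false

open NumberField

namespace Pool.Agent.Results.MP_c65535_nt.AllRadicals

theorem result (Γ : Subgroup (AlgebraicClosure ℚ)ˣ) (hΓ : Γ.FG) (S : Finset ℕ) :
    ∃ (c : ℝ) (C : ℕ), 0 < c ∧
      ∀ L L' : IntermediateField ℚ (AlgebraicClosure ℚ),
      -- `L` is the field generated by all radicals of members of `Γ`
      L = IntermediateField.adjoin ℚ
          {z : AlgebraicClosure ℚ | ∃ n : ℕ, 0 < n ∧ ∃ g ∈ Γ, z ^ n = (g : AlgebraicClosure ℚ)} →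
      -- `L'` is the field generated by all roots of unity and by the `n`-th roots of the members
      -- of `Γ`, where `n` runs over the integers with all prime factors in `S`
      L' = IntermediateField.adjoin ℚ
          ({z : AlgebraicClosure ℚ | ∃ n : ℕ, 0 < n ∧ z ^ n = 1} ∪
            {z | ∃ n : ℕ, 0 < n ∧ (∀ p : ℕ, p.Prime → p ∣ n → p ∈ S) ∧
              ∃ g ∈ Γ, z ^ n = (g : AlgebraicClosure ℚ)}) →
      -- `β` is any algebraic number, `γ` is in the division group of `Γ`
      ∀ β γ : AlgebraicClosure ℚ,
      (∃ n : ℕ, 0 < n ∧ ∃ g ∈ Γ, γ ^ n = (g : AlgebraicClosure ℚ)) →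
      -- the product is nonzero and not in the division group
      β * γ ≠ 0 → (¬ ∃ n : ℕ, 0 < n ∧ ∃ g ∈ Γ, (β * γ) ^ n = (g : AlgebraicClosure ℚ)) →
      c ≤ absLogHeight₁ (β * γ) * Module.finrank L (IntermediateField.adjoin L {β}) *
        (Real.log (3 * Module.finrank L' (IntermediateField.adjoin L' {β}))) ^ C :=
  Pool.Agent.H29.LG.aMUNI Γ hΓ S

end Pool.Agent.Results.MP_c65535_nt.AllRadicals
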