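import Pool.Agent.H26.REM.All

/-!
# Rémond's conjecture: a uniform bound for radicals of coprime levels

Let `a 0, ..., a (r-1)` be rational numbers different from `0`, `1`, `-1`, `Γ` the group generated by
them and `Γ_div` its division group. There is `c > 0` with `h(β γ) ≥ c` for all `γ ∈ Γ_div` and all
`β` in one of the fields `ℚ(ζ, θ 0, ..., θ (r-1))`, `ζ` a primitive `m`-th root of unity and `θ i` an
`N i`-th root of `a i`, where `m, N 0, ..., N (r-1)` are pairwise coprime and every prime `q` which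
divides `N i` is good for `a i`, as long as `β γ` is nonzero and not in `Γ_div`. The constant does
not depend on the levels `m`, `N i`. Good means: `q` does not divide the `q`-adic valuation of
`a i`, or `a i` is a `q`-adic unit and `a i ^ (q - 1)` is not congruent to `1` modulo `q ^ 2`. Here
`NumberField.absLogHeight₁` is the absolute logarithmic Weil height.
-/

set_option autoImplicit false

open NumberField

namespace Pool.Agent.Results.MP_c65535_nt.CoprimeLevels

theorem result (r : ℕ) (a : Fin r → ℚ) (ha : ∀ i, a i ≠ 0 ∧ a i ≠ 1 ∧ a i ≠ -1) :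
    ∃ c : ℝ, 0 < c ∧ ∀ (m : ℕ) (N : Fin r → ℕ) (ζ : AlgebraicClosure ℚ)
      (θ : Fin r → AlgebraicClosure ℚ),
      -- the levels are positive and pairwise coprime
      0 < m → (∀ i, 0 < N i) → (∀ i, Nat.Coprime m (N i)) →
      (∀ i j, i ≠ j → Nat.Coprime (N i) (N j)) →
      -- the primes which divide `N i` are good for `a i`
      (∀ (i : Fin r) (q : ℕ), q.Prime → q ∣ N i →
        ¬ (q : ℤ) ∣ padicValRat q (a i) ∨ (padicValRat q (a i) = 0 ∧
          ¬ (q : ℤ) ^ 2 ∣ (a i).num ^ (q - 1) - ((a i).den : ℤ) ^ (q - 1))) →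
      -- `ζ` is a primitive `m`-th root of unity and `θ i` is an `N i`-th root of `a i`
      IsPrimitiveRoot ζ m → (∀ i, θ i ^ N i = ((a i : ℚ) : AlgebraicClosure ℚ)) →
      -- `β` is in the field generated by them, `γ` is in the division group
      ∀ β γ : AlgebraicClosure ℚ, β ∈ IntermediateField.adjoin ℚ (insert ζ (Set.range θ)) →
      (∃ n : ℕ, 0 < n ∧ ∃ e : Fin r → ℤ,
        γ ^ n = ∏ i, ((a i : ℚ) : AlgebraicClosure ℚ) ^ e i) →
      -- the product is nonzero and not in the division group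
      β * γ ≠ 0 → (¬ ∃ n : ℕ, 0 < n ∧ ∃ e : Fin r → ℤ,
        (β * γ) ^ n = ∏ i, ((a i : ℚ) : AlgebraicClosure ℚ) ^ e i) →
      c ≤ absLogHeight₁ (β * γ) := by
  have halg : Algebra.IsAlgebraic ℚ (AlgebraicClosure ℚ) := AlgebraicClosure.isAlgebraic ℚ
  obtain ⟨c, hc, h⟩ := Pool.Agent.H26.REM.aFIN (AlgebraicClosure ℚ) r a ha
  refine ⟨c, hc, ?_⟩
  intro m N ζ θ hm hN hmN hNN hgood hζ hθ β γ hβ hγ hne hdiv
  obtain ⟨n, hn, e, he⟩ := hγ
  refine h m N ζ θ ⟨fun i => (ha i).1, hm, hN, hζ, hθ, hmN, hNN, hgood⟩ β hβ γ n e hn he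
    (left_ne_zero_of_mul hne) ?_
  rintro ⟨k, x, hk, hx⟩
  exact hdiv ⟨k, hk, x, hx⟩

end Pool.Agent.Results.MP_c65535_nt.CoprimeLevels
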