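import Pool.Agent.H20.FT.All

/-!
# Rémond's conjecture for sums of few terms

Let `Γ` be a finitely generated group of nonzero algebraic numbers, `Γ_div` its division group,
`S` a finite set of primes and `L_S` the field generated over `ℚ` by all roots of unity and by all
numbers `z` with `z ^ n ∈ Γ` for some `n ≥ 1` all of whose prime factors are in `S`. There are
`c > 0` and `C` with `h(δ_1 γ_1 + ... + δ_k γ_k) ≥ c / (k [L_S(δ_1, ..., δ_k) : L_S]) ^ C` for all
`k`, all algebraic numbers `δ_i` and all `γ_i ∈ Γ_div` such that the sum is nonzero and not in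
`Γ_div`. Here `NumberField.absLogHeight₁` is the absolute logarithmic Weil height.
-/

set_option autoImplicit false

open NumberField

namespace Pool.Agent.Results.MP_c65535_nt.FewTerms

theorem result (Γ : Subgroup (AlgebraicClosure ℚ)ˣ) (hΓ : Γ.FG) (S : Finset ℕ) :
    ∃ (c : ℝ) (C : ℕ), 0 < c ∧
      ∀ L' : IntermediateField ℚ (AlgebraicClosure ℚ),
      -- `L'` is the field generated by all roots of unity and by the `n`-th roots of the members
      -- of `Γ`, where `n` runs over the integers with all prime factors in `S`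
      L' = IntermediateField.adjoin ℚ
          ({z : AlgebraicClosure ℚ | ∃ n : ℕ, 0 < n ∧ z ^ n = 1} ∪
            {z | ∃ n : ℕ, 0 < n ∧ (∀ p : ℕ, p.Prime → p ∣ n → p ∈ S) ∧
              ∃ g ∈ Γ, z ^ n = (g : AlgebraicClosure ℚ)}) →
      -- the `δ i` are any algebraic numbers, the `γ i` are in the division group of `Γ`
      ∀ (k : ℕ) (δ γ : Fin k → AlgebraicClosure ℚ),
      (∀ i, ∃ n : ℕ, 0 < n ∧ ∃ g ∈ Γ, γ i ^ n = (g : AlgebraicClosure ℚ)) →
      -- the sum is nonzero and not in the division group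
      ∑ i, δ i * γ i ≠ 0 →
      (¬ ∃ n : ℕ, 0 < n ∧ ∃ g ∈ Γ, (∑ i, δ i * γ i) ^ n = (g : AlgebraicClosure ℚ)) →
      c ≤ absLogHeight₁ (∑ i, δ i * γ i) *
        (k * Module.finrank L' (IntermediateField.adjoin L' (Set.range δ))) ^ C :=
  Pool.Agent.H20.FT.aFT Γ hΓ S

end Pool.Agent.Results.MP_c65535_nt.FewTerms
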